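import Pool.Agent.N89.HB.Stm
import Pool.Agent.H81R2.BT.TaskA

set_option autoImplicit false

/-!
Project HB (helper89): Bertini's theorem on generic lines.
-/

namespace Pool.Agent.N7.HB.BRT

open Polynomial Pool.Agent.N89.HX Pool.Agent.N89.HG Pool.Agent.N89.HB Pool.Agent.H81R2.BT

/-- a monic polynomial which splits is a product over `Fin N` -/
theorem exists_roots {F : Type} [Field F] [IsAlgClosed F] (g : F[X]) (hg : g.Monic) (N : ℕ)
    (hN : g.natDegree = N) : ∃ θ : Fin N → F, g = ∏ i, (X - C (θ i)) := by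
  have h1 := (IsAlgClosed.splits g).eq_prod_roots_of_monic hg
  have h2 : Multiset.card g.roots = g.natDegree := (IsAlgClosed.splits g).natDegree_eq_card_roots.symm
  obtain ⟨l, hl⟩ := Quot.exists_rep g.roots
  have hl' : (l : Multiset F) = g.roots := hl
  rw [← hl'] at h1 h2
  have h3 : l.length = g.natDegree := h2
  rw [← hN, ← h3]
  refine ⟨fun i => l[i.1], ?_⟩
  conv_lhs => rw [h1]
  rw [Multiset.map_coe, Multiset.prod_coe]
  exact (Fin.prod_univ_fun_getElem l (fun a => X - C a)).symm

/-- minimal polynomials of elements outside the fraction field -/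
theorem minpoly_spec {A E F : Type} [CommRing A] [IsDomain A] [IsIntegrallyClosed A] [Field E]
    [Field F] [Algebra A E] [IsFractionRing A E] [Algebra E F] [Algebra A F] [IsScalarTower A E F]
    [CharZero E] [Algebra.IsAlgebraic E F] (γ : F) (hγ : IsIntegral A γ)
    (hne : γ ∉ Set.range (algebraMap E F)) :
    (minpoly A γ).Monic ∧ ((minpoly A γ).map (algebraMap A E)).Separable ∧
      ∀ p : A, (minpoly A γ).eval p ≠ 0 := by
  have h1 : minpoly E γ = (minpoly A γ).map (algebraMap A E) :=
    minpoly.isIntegrallyClosed_eq_field_fractions' E hγ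
  refine ⟨minpoly.monic hγ, ?_, fun p hp => ?_⟩
  · rw [← h1]
    exact Algebra.IsSeparable.isSeparable E γ
  · apply hne
    have h2 : IsRoot (minpoly E γ) (algebraMap A E p) := by
      rw [h1, IsRoot.def, eval_map_algebraMap, aeval_algebraMap_apply, coe_aeval_eq_eval, hp,
        map_zero]
    exact ⟨_, minpoly.root (Algebra.IsIntegral.isIntegral γ) h2⟩

theorem main : S_INT → S_SUB → S_EXT → S_BRT := by
  intro hInt hSub hExt M _ _ _ n f hf hirr D hD
  classical
  let A := MvPolynomial (Fin (n + 1)) M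
  let E := Fr (n + 1) M
  let F := AlgebraicClosure E
  have hAE : Function.Injective (algebraMap A E) := IsFractionRing.injective A E
  have hcA : CharZero A := inferInstance
  have hcE : CharZero E := IsFractionRing.charZero_of_isFractionRing A (K := E)
  have hAF : (algebraMap A F) = (algebraMap E F).comp (algebraMap A E) :=
    IsScalarTower.algebraMap_eq A E F
  have hAFi : Function.Injective (algebraMap A F) := by
    rw [hAF]
    exact (algebraMap E F).injective.comp hAE
  -- the roots
  obtain ⟨N, hN⟩ : ∃ N, f.natDegree = N := ⟨_, rfl⟩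
  have hfE : (f.map (algebraMap A E)).Monic := hf.map _
  have hfF : (f.map (algebraMap A F)).Monic := hf.map _
  have hNF : (f.map (algebraMap A F)).natDegree = N := by rw [hf.natDegree_map, hN]
  have hNE : (f.map (algebraMap A E)).natDegree = N := by rw [hf.natDegree_map, hN]
  obtain ⟨θ, hθ⟩ := exists_roots (f.map (algebraMap A F)) hfF N hNF
  have hθint : ∀ i, IsIntegral A (θ i) := by
    intro i
    refine ⟨f, hf, ?_⟩
    rw [← eval_map, hθ, eval_prod]
    exact Finset.prod_eq_zero (Finset.mem_univ i) (by simp)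
  let C0 := integralClosure A F
  let θ' : Fin N → C0 := fun i => ⟨θ i, hθint i⟩
  have hC0i : Function.Injective (algebraMap A C0) := by
    intro a b hab
    exact hAFi (congrArg Subtype.val hab)
  have hfaith : FaithfulSMul A C0 := (faithfulSMul_iff_algebraMap_injective A C0).2 hC0i
  have hval : Function.Injective (algebraMap C0 F) := Subtype.val_injective
  have hθ'0 : f.map (algebraMap A C0) = ∏ i, (X - C (θ' i)) := by
    apply map_injective _ hval
    rw [Polynomial.map_map, Polynomial.map_prod]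
    have e1 : (algebraMap C0 F).comp (algebraMap A C0) = algebraMap A F := rfl
    rw [e1, hθ]
    refine Finset.prod_congr rfl fun i _ => ?_
    rw [Polynomial.map_sub, map_X, map_C]
    rfl
  -- the polynomials `g_S`
  have hgS : ∀ S : Finset (Fin N), S.Nonempty → S ≠ Finset.univ → ∃ z : ℕ,
      (∏ i ∈ S, (X - C (θ i))).eval (z : F) ∉ Set.range (algebraMap E F) := by
    intro S hS1 hS2
    by_contra hcon
    push Not at hcon
    obtain ⟨g', hg'⟩ := hInt E F (∏ i ∈ S, (X - C (θ i))) hcon
    have hmS : (∏ i ∈ S, (X - C (θ i))).Monic := monic_prod_of_monic _ _ fun i _ => monic_X_sub_C _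
    have hdS : (∏ i ∈ S, (X - C (θ i))).natDegree = S.card := by
      rw [natDegree_prod_of_monic _ _ fun i _ => monic_X_sub_C _]
      simp
    have hg'd : g'.natDegree = S.card := by
      rw [← hdS, ← hg', natDegree_map]
    have hg'0 : g' ≠ 0 := by
      rintro rfl
      rw [Polynomial.map_zero] at hg'
      exact hmS.ne_zero hg'.symm
    have hdvd : g' ∣ f.map (algebraMap A E) := by
      rw [← map_dvd_map' (algebraMap E F), hg', Polynomial.map_map, ← hAF, hθ]
      exact Finset.prod_dvd_prod_of_subset _ _ _ (Finset.subset_univ S)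
    obtain ⟨g2, hg2⟩ := hdvd
    have hg20 : g2 ≠ 0 := by
      rintro rfl
      rw [mul_zero] at hg2
      exact hfE.ne_zero hg2
    have hdeg : g'.natDegree + g2.natDegree = N := by
      rw [← natDegree_mul hg'0 hg20, ← hg2, hNE]
    rcases hirr.isUnit_or_isUnit hg2 with h3 | h3
    · have h4 := natDegree_eq_zero_of_isUnit h3
      rw [hg'd, Finset.card_eq_zero] at h4
      exact hS1.ne_empty h4
    · have h4 := natDegree_eq_zero_of_isUnit h3
      apply hS2
      rw [← Finset.card_eq_iff_eq_univ, Fintype.card_fin]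
      omega
  let J := {S : Finset (Fin N) // S.Nonempty ∧ S ≠ Finset.univ}
  have hgS' : ∀ S : J, ∃ z : ℕ,
      (∏ i ∈ S.1, (X - C (θ i))).eval (z : F) ∉ Set.range (algebraMap E F) := fun S =>
    hgS S.1 S.2.1 S.2.2
  choose z hz using hgS'
  let γ' : J → C0 := fun S => ∏ i ∈ S.1, ((z S : C0) - θ' i)
  have hγ' : ∀ S : J, (γ' S : F) = (∏ i ∈ S.1, (X - C (θ i))).eval (z S : F) := by
    intro S
    rw [eval_prod]
    have e1 : (γ' S : F) = algebraMap C0 F (∏ i ∈ S.1, ((z S : C0) - θ' i)) := rfl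
    rw [e1, map_prod]
    refine Finset.prod_congr rfl fun i _ => ?_
    rw [map_sub, map_natCast, eval_sub, eval_X, eval_C]
    rfl
  have hγint : ∀ S : J, IsIntegral A (γ' S : F) := fun S => (γ' S).2
  let m : J → A[X] := fun S => minpoly A (γ' S : F)
  have hm : ∀ S : J, (m S).Monic ∧ ((m S).map (algebraMap A E)).Separable ∧
      ∀ p : A, (m S).eval p ≠ 0 := fun S =>
    minpoly_spec (A := A) (E := E) (F := F) _ (hγint S) (by rw [hγ']; exact hz S)
  have hmγ : ∀ S : J, ((m S).map (algebraMap A C0)).eval (γ' S) = 0 := by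
    intro S
    apply hval
    rw [map_zero]
    have e2 : algebraMap C0 F (((m S).map (algebraMap A C0)).eval (γ' S)) =
        ((m S).map (algebraMap A F)).eval (γ' S : F) := by
      have e3 : algebraMap A F = (algebraMap C0 F).comp (algebraMap A C0) := rfl
      rw [e3, ← Polynomial.map_map, eval_map (algebraMap C0 F)]
      exact (eval₂_at_apply (algebraMap C0 F) (γ' S)).symm
    rw [e2, eval_map_algebraMap]
    exact minpoly.aeval A (γ' S : F)
  have hd : ∀ S : J, ∃ d : A, d ≠ 0 ∧ ∀ (R : Type) [Field R] (g : A →+* R), g d ≠ 0 →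
      ((m S).map g).Separable := fun S => exists_sep_bad (E := E) (m S) (hm S).2.1
  choose d hd0 hdsep using hd
  let _ : Fintype J := Fintype.ofFinite _
  -- choice of `a`
  obtain ⟨a, ha⟩ : ∃ a : Fin (n + 1) → M, MvPolynomial.eval a (D * ∏ S : J, d S) ≠ 0 := by
    by_contra hcon
    push Not at hcon
    have h1 : D * ∏ S : J, d S ≠ 0 :=
      mul_ne_zero hD (Finset.prod_ne_zero_iff.2 fun S _ => hd0 S)
    apply h1
    apply MvPolynomial.funext
    intro x
    rw [map_zero]
    exact hcon x
  rw [map_mul, map_prod] at ha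
  have haD : MvPolynomial.eval a D ≠ 0 := left_ne_zero_of_mul ha
  have had : ∀ S, MvPolynomial.eval a (d S) ≠ 0 := fun S =>
    Finset.prod_ne_zero_iff.1 (right_ne_zero_of_mul ha) S (Finset.mem_univ S)
  have hroot : ∀ S : J, ∀ p : MvPolynomial (Fin (n + 1)) M,
      ((m S).map (MvPolynomial.map (algebraMap M M))).eval p ≠ 0 := by
    intro S p
    have e1 : (MvPolynomial.map (algebraMap M M) : A →+* A) = RingHom.id A := by
      rw [Algebra.algebraMap_self]
      exact RingHom.ext fun x => MvPolynomial.map_id x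
    rw [e1, Polynomial.map_id]
    exact (hm S).2.2 p
  have hheart := fun S => heart (Kb := M) (m S) (hm S).1 (hroot S) a
    (hdsep S M (MvPolynomial.eval a) (had S))
  choose e he0 he using hheart
  obtain ⟨b, hb⟩ := exists_point (K := M) (Kb := M) (∏ S : J, e S)
    (Finset.prod_ne_zero_iff.2 fun S _ => he0 S)
  rw [map_prod] at hb
  have hbe : ∀ S, MvPolynomial.eval (fun i => algebraMap M M (b i)) (e S) ≠ 0 :=
    fun S => Finset.prod_ne_zero_iff.1 hb S (Finset.mem_univ S)
  let lam : A →+* M[X] := (line a b : A →+* M[X])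
  have hline : ∀ S : J, ∀ p : M[X], ((m S).map lam).eval p ≠ 0 := by
    intro S p
    have h1 := he S b (hbe S) p
    have e1 : (mapRingHom (algebraMap M M) : M[X] →+* M[X]) = RingHom.id M[X] := by
      rw [Algebra.algebraMap_self, mapRingHom_id]
    rw [e1, Polynomial.map_id] at h1
    exact h1
  refine ⟨a, b, ?_, ?_⟩
  swap
  · intro h0
    apply haD
    have h1 : line a b D = 0 := h0
    rw [← line_eval_zero a b, h1, eval_zero]
  -- the extension
  let W := AlgebraicClosure (RatFunc M)
  let jW : M[X] →+* W := (algebraMap (RatFunc M) W).comp (algebraMap M[X] (RatFunc M))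
  have hjW : Function.Injective jW :=
    (algebraMap (RatFunc M) W).injective.comp (IsFractionRing.injective M[X] (RatFunc M))
  obtain ⟨κ, hκ⟩ := hExt A C0 W (jW.comp lam)
  have hfl : (f.map lam).Monic := hf.map _
  have hflN : (f.map lam).natDegree = N := by rw [hf.natDegree_map, hN]
  have hN1 : N ≠ 0 := by
    intro h0
    have h1 : f.map (algebraMap A E) = 1 := by
      rw [← hfE.natDegree_eq_zero, hNE, h0]
    rw [h1] at hirr
    exact hirr.not_isUnit isUnit_one
  have hprod : (f.map lam).map jW = ∏ i, (X - C (κ (θ' i))) := by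
    rw [Polynomial.map_map, ← hκ, ← Polynomial.map_map, hθ'0, Polynomial.map_prod]
    refine Finset.prod_congr rfl fun i _ => ?_
    rw [Polynomial.map_sub, map_X, map_C]
  change Irreducible (f.map lam)
  rw [hfl.irreducible_iff_natDegree]
  refine ⟨fun h1 => ?_, fun g1 g2 hg1 hg2 hg12 => ?_⟩
  · rw [h1, natDegree_one] at hflN
    exact hN1 hflN.symm
  by_contra hcon
  push Not at hcon
  obtain ⟨c1, c2⟩ := hcon
  have hdeg : g1.natDegree + g2.natDegree = N := by
    rw [← hg1.natDegree_mul hg2, hg12, hflN]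
  obtain ⟨S, hS⟩ := hSub W N (fun i => κ (θ' i)) (g1.map jW) (hg1.map jW)
    ⟨g2.map jW, by rw [← Polynomial.map_mul, hg12, hprod]⟩
  have hScard : g1.natDegree = S.card := by
    have h1 : (g1.map jW).natDegree = g1.natDegree := hg1.natDegree_map _
    rw [← h1, hS, natDegree_prod_of_monic _ _ fun i _ => monic_X_sub_C _]
    simp
  have hSJ : S.Nonempty ∧ S ≠ Finset.univ := by
    constructor
    · rw [← Finset.card_pos]
      omega
    · rintro rfl
      rw [Finset.card_univ, Fintype.card_fin] at hScard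
      omega
  apply hline ⟨S, hSJ⟩ (g1.eval ((z ⟨S, hSJ⟩ : ℕ) : M[X]))
  apply hjW
  rw [map_zero]
  have e1 : jW (g1.eval ((z ⟨S, hSJ⟩ : ℕ) : M[X])) = κ (γ' ⟨S, hSJ⟩) := by
    have h1 : jW (g1.eval ((z ⟨S, hSJ⟩ : ℕ) : M[X])) =
        (g1.map jW).eval ((z ⟨S, hSJ⟩ : ℕ) : W) := by
      rw [eval_map, ← map_natCast jW]
      exact (eval₂_at_apply jW _).symm
    rw [h1, hS, eval_prod]
    have h2 : κ (γ' ⟨S, hSJ⟩) = ∏ i ∈ S, κ ((z ⟨S, hSJ⟩ : C0) - θ' i) := map_prod κ _ _
    rw [h2]
    refine Finset.prod_congr rfl fun i _ => ?_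
    rw [map_sub, map_natCast, eval_sub, eval_X, eval_C]
  have e2 : jW (((m ⟨S, hSJ⟩).map lam).eval (g1.eval ((z ⟨S, hSJ⟩ : ℕ) : M[X]))) =
      κ (((m ⟨S, hSJ⟩).map (algebraMap A C0)).eval (γ' ⟨S, hSJ⟩)) := by
    have h1 : jW (((m ⟨S, hSJ⟩).map lam).eval (g1.eval ((z ⟨S, hSJ⟩ : ℕ) : M[X]))) =
        (((m ⟨S, hSJ⟩).map lam).map jW).eval (jW (g1.eval ((z ⟨S, hSJ⟩ : ℕ) : M[X]))) := by
      rw [eval_map jW]
      exact (eval₂_at_apply jW _).symm
    have h2 : κ (((m ⟨S, hSJ⟩).map (algebraMap A C0)).eval (γ' ⟨S, hSJ⟩)) =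
        (((m ⟨S, hSJ⟩).map (algebraMap A C0)).map κ).eval (κ (γ' ⟨S, hSJ⟩)) := by
      rw [eval_map κ]
      exact (eval₂_at_apply κ _).symm
    rw [h1, h2, e1, Polynomial.map_map, Polynomial.map_map, hκ]
  rw [e2, hmγ, map_zero]

end Pool.Agent.N7.HB.BRT
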